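import Pool.Agent.U227.MotNC

/-!
# Group actions and the noncommutative standard conjecture of type `C^+`

Let `C` be a `ℚ`-linear category with split idempotents and finite direct sums, for example the category of
noncommutative Chow motives over a perfect field `k`, `R` an additive functor to vector spaces over a
field `K` (periodic cyclic homology, or topological periodic cyclic homology with `p` inverted), and
`π` a natural endomorphism of `R` (the projector to the even part). The conjecture `C^+(M)` says that `π M` is
given by an endomorphism of `M`. Let a finite group `G` act on `M`, for example on the motive of a smooth
proper dg category. We show:

* `C^+(M)` is true if and only if every irreducible rational representation `ρ` of `G` which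
  occurs in `End(M)` modulo the endomorphisms factoring through objects with `C^+` has a nonzero
  vector fixed by a subgroup `H` such that `C^+` is true for the part of `M` fixed by `H`;
* `C^+` is true for the part `M/H` fixed by `H` if it is true for all `M/D_j` and every such `ρ` with a nonzero
  vector fixed by `H` has a nonzero vector fixed by some `D_j`;
* if `c` is an involution, then `C^+(M)` is true if and only if it is true for `M/c` and `M/[G,c]`; if `c`
  is contained in a nonabelian simple subgroup, if and only if for `M/c`; if a subgroup is partitioned into
  subgroups `D_j`, at least two, if and only if for all `M/D_j`; if `G` is commutative, if and only if for all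
  `M/K`, `G/K` cyclic;
* if `C^+(M)` is false, but true for `M/H` for all subgroups of prime order, then an irreducible
  rational representation occurs in which the elements different from one fix only `0` (so `G` is
  a Frobenius complement), the commutative subgroups and the subgroups of order `p q` are cyclic, and `G`
  has at most one involution.

The proof: the elements of the rational group ring whose action on `M` factors through an object with `C^+`
are a two-sided ideal, since `C^+` is stable under direct sums and direct summands. It contains `∑_(h ∈ H) h`
if and only if `C^+` is true for the part fixed by `H`.

The representation theoretic criteria (involutions, simple groups, partitions, groups of order `p q`)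
are from the library (`X252`, `X328`), where they are applied to the Künneth components of varieties.
-/

open CategoryTheory Limits Pool.Agent.X252.SCT Pool.Agent.U227.Grp Pool.Agent.U227.Mot

universe w v u

namespace Pool.Agent.Results.MP_8f22fa_ag.GroupActions

/-- **Group actions and the noncommutative standard conjecture of type `C^+`.** -/
theorem result {C : Type u} [Category.{v} C] [Preadditive C] [Linear ℚ C] [IsIdempotentComplete C]
    [HasZeroObject C] [HasBinaryBiproducts C] {K : Type w} [Field K] (R : C ⥤ ModuleCat.{w} K)
    [R.Additive] (π : R ⟶ R) {G : Type} [Group G] [Finite G] {M : C} (a : G →* End M) :
    (OperatorAlgebraic R π M ↔ Covered (OperatorAlgebraic R π) a) ∧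
    (∀ (H : Subgroup G) (ι : Type) (D : ι → Subgroup G), Dominates (OperatorAlgebraic R π) a H D →
      (∀ j, OnQuotient (OperatorAlgebraic R π) a (D j)) →
        OnQuotient (OperatorAlgebraic R π) a H) ∧
    QuotientLaws (OperatorAlgebraic R π M) (OnQuotient (OperatorAlgebraic R π) a) ∧
    (¬ OperatorAlgebraic R π M → AtPrimes (OnQuotient (OperatorAlgebraic R π) a) →
      FreeOccurs (OperatorAlgebraic R π) a ∧ CyclicSubgroups G) :=
  main (isStable_operatorAlgebraic R π) a

end Pool.Agent.Results.MP_8f22fa_ag.GroupActions
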