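import Pool.Agent.Results.MP_eadf0f_ag.EveryPositiveCharacteristic
import Pool.Agent.N164.NC.Rank
import Pool.Agent.U586.CP.Alg

/-!
# Kunneth projectors modulo `p`, integral Kunneth projectors, and the conjecture `C⁺`

Let `k` be a perfect field of characteristic `p > 0` and `A` a saturated dg category over `k`. There are
two Kunneth conjectures for `A`: the conjecture `C⁺_nc (A)` on `TP_± (A)_{1/p}`, with rational
coefficients, and the conjecture `C_NC (A)` on `HP_± (A)`, with coefficients in a field `F` of
characteristic `p`. We show that the second conjecture is an integral form of the first one: it holds if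
and only if `TP_* (A)` has no torsion and the projector of `TP_* (A)` onto the even part is a combination
of noncommutative correspondences with coefficients in the Witt vectors of `k`. In particular it implies
`C⁺_nc (A)`.

More generally, for `C⁺_nc (A)` it is enough that some combination of correspondences is surjective on
`TP_+ (A) / p` and nilpotent on `TP_- (A) / p`.
-/

set_option autoImplicit false

open CategoryTheory Module TensorProduct Limits MonoidalCategory

namespace Pool.Agent.Results.MP_8f22fa_ag.IntegralProjectors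

open Pool.Agent.Results.MP_eadf0f_ag.EveryPositiveCharacteristic
open Pool.Agent.Y112.SR Pool.Agent.Y112.KD Pool.Agent.R484.NC Pool.Agent.N164.NC

universe u v w u' v'

section defs

/-- `f` is surjective modulo `p`. -/
def SurjModP (p : ℕ) {M : Type w} [AddCommGroup M] (f : M → M) : Prop :=
  ∀ y, ∃ x w, y = f x + p • w

/-- `f` is nilpotent modulo `p`. -/
def NilpModP (p : ℕ) {M : Type w} [AddCommGroup M] (f : M → M) : Prop :=
  ∃ N : ℕ, ∀ y, ∃ w, f^[N] y = p • w

/-- `l` is an additive map, linear over `θ`, whose kernel is the `p`-power torsion. -/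
def Inverts {R K : Type} [CommRing R] [Field K] (p : ℕ) (θ : R → K) {M : Type w} {V : Type u}
    [AddCommGroup M] [Module R M] [AddCommGroup V] [Module K V] (l : M → V) : Prop :=
  (∀ x y, l (x + y) = l x + l y) ∧ (∀ c x, l (c • x) = θ c • l x) ∧
    ∀ x, l x = 0 ↔ ∃ n : ℕ, p ^ n • x = 0

/-- The images of `f` and `g` generate the vector space `V`. -/
def Generate (K : Type) [Field K] {M M' : Type w} {V : Type u} [AddCommGroup V] [Module K V]
    (f : M → V) (g : M' → V) : Prop := Submodule.span K (Set.range f ∪ Set.range g) = ⊤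

variable {R : Type} [CommRing R] {D : Type u} [Category.{v} D]

section

variable [Preadditive D] (H : SuperFunctor.{u, v, w} R D)

/-- The operator on the part `ε` of `H (A)` of the correspondence `∑ c_i z_i` with coefficients in
`R`. -/
def comb {A : D} {n : ℕ} (c : Fin n → R) (z : Fin n → (A ⟶ A)) (ε : ZMod 2) (x : H.obj ε A) :
    H.obj ε A := ∑ i, c i • H.act ε (z i) x

/-- `H (A)` has no `p`-torsion. -/
def TorsionFree (p : ℕ) (A : D) : Prop := ∀ (ε : ZMod 2) (x : H.obj ε A), p • x = 0 → x = 0

/-- The projector of `H (A)` onto the even part is a combination of correspondences with coefficients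
in `R`. -/
def IntegralPlus (A : D) : Prop :=
  ∃ (n : ℕ) (c : Fin n → R) (z : Fin n → (A ⟶ A)),
    (∀ x, comb H c z 0 x = x) ∧ ∀ x, comb H c z 1 x = 0

/-- Some combination of correspondences with coefficients in `R` is surjective on the even part of
`H (A) / p` and nilpotent on the odd part. -/
def SeparatedModP (p : ℕ) (A : D) : Prop :=
  ∃ (n : ℕ) (c : Fin n → R) (z : Fin n → (A ⟶ A)),
    SurjModP p (comb H c z 0) ∧ NilpModP p (comb H c z 1)

end

/-- A `ℚ`-linear rigid symmetric monoidal category in which the endomorphisms of the unit object are the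
rational numbers, for example the noncommutative Chow motives over `k` with rational coefficients. -/
structure Chow where
  /-- the objects -/
  C : Type u'
  [category : Category.{v'} C]
  [preadditive : Preadditive C]
  [linear : Linear ℚ C]
  [monoidal : MonoidalCategory C]
  [monoidalPreadditive : MonoidalPreadditive C]
  [monoidalLinear : MonoidalLinear ℚ C]
  [symmetric : SymmetricCategory C]
  [rigid : RightRigidCategory C]
  unit : UnitQ C

attribute [instance] Chow.category Chow.preadditive Chow.linear Chow.monoidal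
  Chow.monoidalPreadditive Chow.monoidalLinear Chow.symmetric Chow.rigid

/-- A functor `A ↦ U (A)` from `D` (saturated dg categories) to `N` (noncommutative Chow motives) and a
realisation of `N` in super vector spaces over `K`. -/
structure Rational (D : Type u) [Category.{v} D] (K : Type) [Field K] (N : Chow.{u', v'}) where
  /-- the functor `A ↦ U (A)` -/
  func : D ⥤ N.C
  /-- the realisation -/
  real : SuperRealisation N.C K

variable {K : Type} [Field K] {N : Chow.{u', v'}}

/-- The vector space of the realisation of `U (A)`. -/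
abbrev Rational.V (ρ : Rational D K N) (A : D) : ModuleCat.{0} K := ρ.real.H.obj (ρ.func.obj A)

/-- The involution of the realisation of `U (A)`, which is `1` on the even and `-1` on the odd part. -/
def Rational.parity (ρ : Rational D K N) (A : D) (x : ρ.V A) : ρ.V A :=
  ρ.real.par (ρ.func.obj A) x

/-- The operator of a correspondence on the realisation. -/
def Rational.act (ρ : Rational D K N) {A B : D} (z : A ⟶ B) (x : ρ.V A) : ρ.V B :=
  ρ.real.H.map (ρ.func.map z) x

/-- The conjecture `C⁺` for `U (A)`: the even projector of the realisation is given by an endomorphism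
of `U (A)`. -/
def Rational.CPlus (ρ : Rational D K N) (A : D) : Prop := ρ.real.CPlus (ρ.func.obj A)

/-- The realisation of `U (A)` is obtained from `H (A)` by inverting `p`, by the maps `loc`, compatibly
with the correspondences and with the decomposition in an even and an odd part. -/
structure IsLocalisation [Preadditive D] (H : SuperFunctor.{u, v, w} R D) (ρ : Rational D K N) (p : ℕ)
    (θ : R → K) (loc : ∀ (ε : ZMod 2) (A : D), H.obj ε A → ρ.V A) : Prop where
  inverts : ∀ ε A, Inverts p θ (loc ε A)
  natural : ∀ ε A B (z : A ⟶ B) x, loc ε B (H.act ε z x) = ρ.act z (loc ε A x)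
  even : ∀ A x, ρ.parity A (loc 0 A x) = loc 0 A x
  odd : ∀ A x, ρ.parity A (loc 1 A x) = - loc 1 A x
  generate : ∀ A, Generate K (loc 0 A) (loc 1 A)

/-- The realisation is the one by `TP_± (-)_{1/p}`: it is obtained from `TP_*` by inverting `p`. -/
def IsTP {p : ℕ} [Fact p.Prime] (T : Theory.{u, v, w} p) (k : Type) [Field k] [CharP k p]
    [PerfectRing k p] (ρ : Rational (T.M k).Cat (FractionRing (WittVector p k)) N) : Prop :=
  ∃ loc, IsLocalisation (T.TP k) ρ p (algebraMap _ _) loc

/-- `TP_* (A)` has no `p`-torsion, and its even projector is a combination of correspondences with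
coefficients in the Witt vectors of `k`. -/
def IntegralC {p : ℕ} [Fact p.Prime] (T : Theory.{u, v, w} p) {k : Type} [Field k] [CharP k p]
    [PerfectRing k p] (A : (T.M k).Cat) : Prop := TorsionFree (T.TP k) p A ∧ IntegralPlus (T.TP k) A

/-- One of the Kunneth projectors on `HP_± (A)` is algebraic with coefficients in `F`, or some
correspondence with coefficients in `F` acts on the two parts by different scalars. -/
def SomeAlgebraic {k : Type} [Field k] (M : Motives.{u, v, w} k) (F E : Type) [Field F] [Field E]
    [Algebra k E] [Algebra F E] (A : M.Cat) : Prop :=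
  M.PlusAlgebraic F E A ∨ M.MinusAlgebraic F E A ∨ M.Separated F E A

end defs

/-! ### Proofs -/

/-- The pairs of operators on the even and the odd part given by combinations of correspondences. -/
noncomputable def pairs {R : Type} [CommRing R] {C : Type u} [Category.{v} C] [Preadditive C]
    (H : SuperFunctor.{u, v, w} R C) (A : C) :
    Subalgebra R (Module.End R (H.obj 0 A) × Module.End R (H.obj 1 A)) :=
  (Submodule.span R (Set.range fun z : A ⟶ A => (H.lin 0 z, H.lin 1 z))).toSubalgebra
    (Submodule.subset_span ⟨𝟙 A, Prod.ext (LinearMap.ext (H.id 0 A)) (LinearMap.ext (H.id 1 A))⟩)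
    (by
      intro a b ha hb
      induction ha using Submodule.span_induction with
      | mem x hx =>
        obtain ⟨f, rfl⟩ := hx
        induction hb using Submodule.span_induction with
        | mem y hy =>
          obtain ⟨g, rfl⟩ := hy
          exact Submodule.subset_span ⟨g ≫ f, Prod.ext (LinearMap.ext (H.comp 0 g f))
            (LinearMap.ext (H.comp 1 g f))⟩
        | zero => rw [mul_zero]; exact Submodule.zero_mem _
        | add x y _ _ hx hy => rw [mul_add]; exact Submodule.add_mem _ hx hy
        | smul c x _ hx => rw [mul_smul_comm]; exact Submodule.smul_mem _ _ hx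
      | zero => rw [zero_mul]; exact Submodule.zero_mem _
      | add x y _ _ hx hy => rw [add_mul]; exact Submodule.add_mem _ hx hy
      | smul c x _ hx => rw [smul_mul_assoc]; exact Submodule.smul_mem _ _ hx)

section

variable {p : ℕ} [Fact p.Prime] (T : Theory.{u, v, w} p) {k : Type} [Field k] [CharP k p]
  [PerfectRing k p]

lemma mem_pairs_iff {A : (T.M k).Cat}
    (x : Module.End (WittVector p k) ((T.TP k).obj 0 A) ×
      Module.End (WittVector p k) ((T.TP k).obj 1 A)) :
    x ∈ pairs (T.TP k) A ↔ ∃ (n : ℕ) (c : Fin n → WittVector p k) (z : Fin n → (A ⟶ A)),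
      (∀ y, comb (T.TP k) c z 0 y = x.1 y) ∧ ∀ y, comb (T.TP k) c z 1 y = x.2 y := by
  have h0 : x ∈ pairs (T.TP k) A ↔ x ∈ Submodule.span (WittVector p k)
      (Set.range fun z : A ⟶ A => ((T.TP k).lin 0 z, (T.TP k).lin 1 z)) := Iff.rfl
  rw [h0, Submodule.mem_span_set']
  constructor
  · rintro ⟨n, c, g, rfl⟩
    choose z hz using fun i => (g i).2
    refine ⟨n, c, z, fun y => ?_, fun y => ?_⟩
    · rw [comb, Prod.fst_sum, LinearMap.sum_apply]
      refine Finset.sum_congr rfl fun i _ => ?_
      rw [← hz i]
      rfl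
    · rw [comb, Prod.snd_sum, LinearMap.sum_apply]
      refine Finset.sum_congr rfl fun i _ => ?_
      rw [← hz i]
      rfl
  · rintro ⟨n, c, z, h1, h2⟩
    refine ⟨n, c, fun i => ⟨_, ⟨z i, rfl⟩⟩, Prod.ext (LinearMap.ext fun y => ?_)
      (LinearMap.ext fun y => ?_)⟩
    · rw [← h1, comb, Prod.fst_sum, LinearMap.sum_apply]
      rfl
    · rw [← h2, comb, Prod.snd_sum, LinearMap.sum_apply]
      rfl

lemma span_p_le : Ideal.span {(p : WittVector p k)} ≤ Ideal.jacobson ⊥ := by
  rw [IsLocalRing.jacobson_eq_maximalIdeal ⊥ bot_ne_top, Ideal.span_singleton_le_iff_mem,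
    IsLocalRing.mem_maximalIdeal, mem_nonunits_iff]
  intro h
  have h1 := h.map (WittVector.constantCoeff (p := p) (R := k))
  rw [map_natCast, CharP.cast_eq_zero] at h1
  exact not_isUnit_zero h1

/-- **The integral projector.** -/
theorem integral_iff (A : (T.M k).Cat) : IntegralPlus (T.TP k) A ↔ SeparatedModP (T.TP k) p A := by
  constructor
  · rintro ⟨n, c, z, h0, h1⟩
    refine ⟨n, c, z, fun y => ⟨y, 0, by rw [h0, smul_zero, add_zero]⟩, 1, fun y => ⟨0, ?_⟩⟩
    rw [Function.iterate_one, h1, smul_zero]
  · rintro ⟨n, c, z, h0, N, h1⟩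
    have hf0 := T.finite k 0 A
    have hf1 := T.finite k 1 A
    obtain ⟨x, hx⟩ : ∃ x : Module.End (WittVector p k) ((T.TP k).obj 0 A) ×
        Module.End (WittVector p k) ((T.TP k).obj 1 A),
        x = ∑ i, c i • ((T.TP k).lin 0 (z i), (T.TP k).lin 1 (z i)) := ⟨_, rfl⟩
    have hxS : x ∈ pairs (T.TP k) A := by
      rw [hx]
      exact Submodule.sum_mem _ fun i _ => Submodule.smul_mem _ _
        (Submodule.subset_span ⟨z i, rfl⟩)
    have hx0 : ∀ y, x.1 y = comb (T.TP k) c z 0 y := by
      intro y
      rw [hx, comb, Prod.fst_sum, LinearMap.sum_apply]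
      rfl
    have hx1 : ∀ y, x.2 y = comb (T.TP k) c z 1 y := by
      intro y
      rw [hx, comb, Prod.snd_sum, LinearMap.sum_apply]
      rfl
    have hxN : ∀ y, (x.2 ^ N) y = (comb (T.TP k) c z 1)^[N] y := by
      intro y
      have hfun : ⇑x.2 = comb (T.TP k) c z 1 := funext hx1
      rw [Module.End.pow_apply, hfun]
    have h2 := Pool.Agent.U586.CP.proj_mem (p : WittVector p k) span_p_le (pairs (T.TP k) A) x hxS
      (fun y => by
        obtain ⟨u, w, hu⟩ := h0 y
        exact ⟨u, w, by rw [hx0, Nat.cast_smul_eq_nsmul]; exact hu⟩) N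
      (fun y => by
        obtain ⟨w, hw⟩ := h1 y
        exact ⟨w, by rw [hxN, Nat.cast_smul_eq_nsmul]; exact hw⟩)
    exact (mem_pairs_iff T _).1 h2

/-- Combinations of correspondences can be lifted to the Witt vectors. -/
lemma exists_lift_mem (A : (T.M k).Cat) {P : (T.M k).HP.Op A} (hP : P ∈ (T.M k).HP.alg A) :
    ∃ Q ∈ pairs (T.TP k) A, (∀ x, (T.maps k).red 0 A (Q.1 x) = P 0 ((T.maps k).red 0 A x)) ∧
      ∀ x, (T.maps k).red 1 A (Q.2 x) = P 1 ((T.maps k).red 1 A x) := by
  have hr0 : ∀ ε, (T.maps k).red ε A 0 = 0 := fun ε => by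
    have h := (T.maps k).red_add ε A 0 0
    rw [add_zero] at h
    exact left_eq_add.1 h
  induction hP using Submodule.span_induction with
  | mem P hP =>
    obtain ⟨z, rfl⟩ := hP
    exact ⟨_, Submodule.subset_span ⟨z, rfl⟩, (T.exact k).red_natural 0 A A z,
      (T.exact k).red_natural 1 A A z⟩
  | zero =>
    refine ⟨0, Subalgebra.zero_mem _, fun x => ?_, fun x => ?_⟩
    · exact hr0 0
    · exact hr0 1
  | add P Q _ _ hP hQ =>
    obtain ⟨P', hP', h1, h2⟩ := hP
    obtain ⟨Q', hQ', h3, h4⟩ := hQ
    refine ⟨P' + Q', Subalgebra.add_mem _ hP' hQ', fun x => ?_, fun x => ?_⟩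
    · rw [Prod.fst_add, LinearMap.add_apply, (T.maps k).red_add, h1, h3]
      rfl
    · rw [Prod.snd_add, LinearMap.add_apply, (T.maps k).red_add, h2, h4]
      rfl
  | smul c P _ hP =>
    obtain ⟨P', hP', h1, h2⟩ := hP
    obtain ⟨w, rfl⟩ := WittVector.constantCoeff_surjective p c
    refine ⟨w • P', Subalgebra.smul_mem _ hP' w, fun x => ?_, fun x => ?_⟩
    · rw [Prod.smul_fst, LinearMap.smul_apply, (T.maps k).red_smul, h1]
      rfl
    · rw [Prod.smul_snd, LinearMap.smul_apply, (T.maps k).red_smul, h2]
      rfl

/-- **From coefficients of characteristic `p` to integral coefficients.** -/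
theorem integral_of_separated (F E : Type) [Field F] [Field E] [Algebra k E] [Algebra F E]
    (A : (T.M k).Cat) (h : (T.M k).Separated F E A) : IntegralC T A := by
  obtain ⟨a, b, hab, h⟩ := h
  obtain ⟨a', b', hab', P, hP, h0, h1⟩ := (T.M k).exists_alg A a b hab h
  refine ⟨fun ε x hx => torsion_free (T.exact k) A (fun ε => T.finite k ε A) a' b' hab' hP h0 h1 ε x
    hx, (integral_iff T A).2 ?_⟩
  obtain ⟨Q, hQ, h2, h3⟩ := exists_lift_mem T A hP
  obtain ⟨α, hα⟩ := WittVector.constantCoeff_surjective p a'
  obtain ⟨β, hβ⟩ := WittVector.constantCoeff_surjective p b'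
  obtain ⟨γ, hγ⟩ : ∃ γ, γ * (α - β) = 1 := by
    have h4 : IsUnit (α - β) := by
      refine WittVector.isUnit_of_coeff_zero_ne_zero _ ?_
      change WittVector.constantCoeff (α - β) ≠ 0
      rw [map_sub, hα, hβ]
      exact sub_ne_zero.2 hab'
    exact h4.exists_left_inv
  have hred : ∀ (ε : ZMod 2) (x y : (T.TP k).obj ε A), (T.maps k).red ε A x = (T.maps k).red ε A y →
      ∃ w, x = y + p • w := by
    intro ε x y hxy
    have h5 : (T.maps k).red ε A (x - y) = 0 := by
      have h6 := (T.maps k).red_add ε A (x - y) y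
      rw [sub_add_cancel, hxy] at h6
      exact right_eq_add.1 h6
    obtain ⟨w, hw⟩ := ((T.exact k).exact_red ε A (x - y)).1 h5
    exact ⟨w, by rw [← hw]; abel⟩
  obtain ⟨n, c, z, h7, h8⟩ := (mem_pairs_iff T (γ • (Q - β • 1))).1
    (Subalgebra.smul_mem _ (Subalgebra.sub_mem _ hQ (Subalgebra.smul_mem _ (Subalgebra.one_mem _) β)) γ)
  have hsub : ∀ (ε : ZMod 2) (x y : (T.TP k).obj ε A), (T.maps k).red ε A (x - y) =
      (T.maps k).red ε A x - (T.maps k).red ε A y := by
    intro ε x y
    have h6 := (T.maps k).red_add ε A (x - y) y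
    rw [sub_add_cancel] at h6
    rw [h6, add_sub_cancel_right]
  have hγ' : WittVector.constantCoeff γ * (a' - b') = 1 := by
    have := congrArg WittVector.constantCoeff hγ
    rwa [map_mul, map_sub, hα, hβ, map_one] at this
  refine ⟨n, c, z, fun y => ?_, 1, fun y => ?_⟩
  · refine ⟨y, hred 0 y _ ?_⟩
    rw [h7]
    change _ = (T.maps k).red 0 A (γ • (Q.1 y - β • y))
    rw [(T.maps k).red_smul, hsub, h2, h0, (T.maps k).red_smul]
    change _ = WittVector.constantCoeff γ • (a' • (T.maps k).red 0 A y -
      WittVector.constantCoeff β • (T.maps k).red 0 A y)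
    rw [hβ, ← sub_smul, smul_smul, hγ', one_smul]
  · obtain ⟨w, hw⟩ := hred 1 (comb (T.TP k) c z 1 y) 0 (by
      rw [h8]
      change (T.maps k).red 1 A (γ • (Q.2 y - β • y)) = _
      rw [(T.maps k).red_smul, hsub, h3, h1, (T.maps k).red_smul]
      change WittVector.constantCoeff γ • (b' • (T.maps k).red 1 A y -
        WittVector.constantCoeff β • (T.maps k).red 1 A y) = _
      rw [hβ, sub_self, smul_zero]
      have h := (T.maps k).red_add 1 A 0 0
      rw [add_zero] at h
      exact (left_eq_add.1 h).symm)
    exact ⟨w, by rw [Function.iterate_one, hw, zero_add]⟩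

/-- **From integral coefficients to coefficients of characteristic `p`.** -/
theorem plus_of_integral (F : Type) [Field F] [Algebra k F] (A : (T.M k).Cat)
    (ht : TorsionFree (T.TP k) p A) (h : IntegralPlus (T.TP k) A) : (T.M k).PlusAlgebraic F F A := by
  obtain ⟨n, c, z, h0, h1⟩ := h
  have hs := red_surjective (T.exact k) A ht
  have hr0 : ∀ ε, (T.maps k).red ε A 0 = 0 := fun ε => by
    have h := (T.maps k).red_add ε A 0 0
    rw [add_zero] at h
    exact left_eq_add.1 h
  have key : ∀ (ε : ZMod 2) (y : (T.TP k).obj ε A),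
      ∑ i, (algebraMap F F (algebraMap k F ((c i).coeff 0))) ⊗ₜ[k]
        (T.M k).HP.act ε (z i) ((T.maps k).red ε A y) = 1 ⊗ₜ (T.maps k).red ε A (comb (T.TP k) c z ε y) := by
    intro ε y
    obtain ⟨ρ, hρ⟩ : ∃ ρ : (T.TP k).obj ε A →+ (T.M k).HP.obj ε A, ⇑ρ = (T.maps k).red ε A :=
      ⟨AddMonoidHom.mk' _ ((T.maps k).red_add ε A), rfl⟩
    rw [comb, ← hρ, map_sum, TensorProduct.tmul_sum]
    refine Finset.sum_congr rfl fun i _ => ?_
    rw [hρ, (T.maps k).red_smul, (T.exact k).red_natural, TensorProduct.tmul_smul,
      TensorProduct.smul_tmul', Algebra.smul_def, mul_one]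
    rfl
  refine ⟨n, fun i => algebraMap k F ((c i).coeff 0), z, fun x => ?_, fun x => ?_⟩
  · obtain ⟨y, rfl⟩ := hs 0 x
    rw [key, h0]
  · obtain ⟨y, rfl⟩ := hs 1 x
    rw [key, h1, hr0, TensorProduct.tmul_zero, TensorProduct.zero_tmul]

omit [PerfectRing k p] in
/-- The complementary projector. -/
theorem minus_of_plus (F E : Type) [Field F] [Field E] [Algebra k E] [Algebra F E]
    (A : (T.M k).Cat) (h : (T.M k).PlusAlgebraic F E A) : (T.M k).MinusAlgebraic F E A := by
  obtain ⟨n, c, z, h0, h1⟩ := h
  refine ⟨n + 1, Fin.cons 1 fun i => - c i, Fin.cons (𝟙 A) z, fun x => ?_, fun x => ?_⟩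
  · rw [Fin.sum_univ_succ]
    simp only [Fin.cons_zero, Fin.cons_succ, map_one, map_neg, TensorProduct.neg_tmul,
      Finset.sum_neg_distrib]
    rw [h0, (T.M k).HP.id, add_neg_cancel, TensorProduct.zero_tmul]
  · rw [Fin.sum_univ_succ]
    simp only [Fin.cons_zero, Fin.cons_succ, map_one, map_neg, TensorProduct.neg_tmul,
      Finset.sum_neg_distrib]
    rw [h1, (T.M k).HP.id, TensorProduct.zero_tmul, neg_zero, add_zero]

/-- **From integral coefficients to the conjecture `C⁺`.** -/
theorem cplus_of_integral {N : Chow.{u', v'}}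
    (ρ : Rational (T.M k).Cat (FractionRing (WittVector p k)) N) (hρ : IsTP T k ρ)
    (A : (T.M k).Cat) (h : IntegralPlus (T.TP k) A) : ρ.CPlus A := by
  have hc := R_charZero ρ.real
  obtain ⟨loc, hl⟩ := hρ
  obtain ⟨n, c, z, h0, h1⟩ := h
  apply cplus_of_span ρ.real N.unit
  have h2 : evp ρ.real (ρ.func.obj A) = ∑ i, algebraMap (WittVector p k)
      (FractionRing (WittVector p k)) (c i) • op ρ.real (ρ.func.map (z i)) := by
    have hpar : ∀ v : ρ.V A, evp ρ.real (ρ.func.obj A) v - (v - evp ρ.real (ρ.func.obj A) v) =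
        ρ.parity A v := fun v => (LinearMap.congr_fun (par_hom ρ.real _) v).symm
    have hsum : ∀ (ε : ZMod 2) (x : (T.TP k).obj ε A), (∑ i, algebraMap (WittVector p k)
        (FractionRing (WittVector p k)) (c i) • op ρ.real (ρ.func.map (z i))) (loc ε A x) =
        loc ε A (comb (T.TP k) c z ε x) := by
      intro ε x
      obtain ⟨l, hl'⟩ : ∃ l : (T.TP k).obj ε A →+ ρ.V A, ⇑l = loc ε A :=
        ⟨AddMonoidHom.mk' _ (hl.inverts ε A).1, rfl⟩
      rw [comb, ← hl', map_sum, LinearMap.sum_apply]
      refine Finset.sum_congr rfl fun i _ => ?_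
      rw [hl', (hl.inverts ε A).2.1, hl.natural]
      rfl
    refine LinearMap.ext_on (hl.generate A) ?_
    rintro _ (⟨x, rfl⟩ | ⟨x, rfl⟩)
    · refine Eq.trans ?_ (hsum 0 x).symm
      rw [h0]
      have h3 := hpar (loc 0 A x)
      rw [hl.even] at h3
      have h4 : (2 : FractionRing (WittVector p k)) • evp ρ.real (ρ.func.obj A) (loc 0 A x) =
          (2 : FractionRing (WittVector p k)) • loc 0 A x := by
        rw [two_smul, two_smul]
        nth_rw 3 [← h3]
        abel
      exact smul_right_injective _ two_ne_zero h4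
    · refine Eq.trans ?_ (hsum 1 x).symm
      rw [h1]
      have h3 := hpar (loc 1 A x)
      rw [hl.odd] at h3
      have h5 : loc 1 A 0 = 0 := ((hl.inverts 1 A).2.2 0).2 ⟨0, smul_zero _⟩
      have h4 : (2 : FractionRing (WittVector p k)) • evp ρ.real (ρ.func.obj A) (loc 1 A x) =
          (2 : FractionRing (WittVector p k)) • (0 : ρ.V A) := by
        rw [two_smul, smul_zero]
        have h6 := congrArg (fun v => v + loc 1 A x) h3
        simp only [neg_add_cancel] at h6
        rw [← h6]
        abel
      rw [h5]
      exact smul_right_injective _ two_ne_zero h4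
  rw [h2]
  exact Submodule.sum_mem _ fun i _ => Submodule.smul_mem _ _ (Submodule.subset_span ⟨_, rfl⟩)

end

/-- **Kunneth projectors modulo `p` and integral Kunneth projectors.** Let `k` be a perfect field of
characteristic `p > 0` and `A` a saturated dg category over `k`.

(1) Let `F` be a coefficient field, `E` a field which contains `k` and `F`. If `π⁺` or `π⁻` on `HP_± (A)` is
algebraic with coefficients in `F`, or if some correspondence with coefficients in `F` acts on the two
parts of `HP_± (A)` by different scalars, then `TP_* (A)` has no torsion, and its even projector is a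
combination of correspondences with coefficients in the Witt vectors of `k`.

(2) If `F` contains `k`, then all these conditions are equivalent.

(3) The even projector of `TP_* (A)` is a combination of correspondences with coefficients in the Witt
vectors, if and only if some combination is surjective on `TP_+ (A) / p` and nilpotent on
`TP_- (A) / p`.

(4) If this is the case, for example if `C_NC (A)` holds for one coefficient field `F` as in (1), then
the conjecture `C⁺_nc (A)` holds. -/
theorem result (p : ℕ) [Fact p.Prime] (T : Theory.{u, v, w} p) (k : Type) [Field k] [CharP k p]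
    [PerfectRing k p] (A : (T.M k).Cat) :
    (∀ (F E : Type) [Field F] [Field E] [Algebra k E] [Algebra F E],
      SomeAlgebraic (T.M k) F E A → IntegralC T A) ∧
    (∀ (F : Type) [Field F] [Algebra k F],
      List.TFAE [(T.M k).PlusAlgebraic F F A, (T.M k).MinusAlgebraic F F A,
        (T.M k).Separated F F A, IntegralC T A]) ∧
    (IntegralPlus (T.TP k) A ↔ SeparatedModP (T.TP k) p A) ∧
    ∀ (N : Chow.{u', v'}) (ρ : Rational (T.M k).Cat (FractionRing (WittVector p k)) N),
      IsTP T k ρ → IntegralPlus (T.TP k) A → ρ.CPlus A := by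
  refine ⟨fun F E _ _ _ _ h => ?_, fun F _ _ => ?_,
    integral_iff T A, fun N ρ hρ h => cplus_of_integral T ρ hρ A h⟩
  · rcases h with h | h | h
    · exact integral_of_separated T F E A ⟨1, 0, one_ne_zero, h⟩
    · exact integral_of_separated T F E A ⟨0, 1, zero_ne_one, h⟩
    · exact integral_of_separated T F E A h
  · tfae_have 1 → 2 := minus_of_plus T F F A
    tfae_have 2 → 3 := fun h => ⟨0, 1, zero_ne_one, h⟩
    tfae_have 3 → 4 := integral_of_separated T F F A
    tfae_have 4 → 1 := fun h => plus_of_integral T F A h.1 h.2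
    tfae_finish

end Pool.Agent.Results.MP_8f22fa_ag.IntegralProjectors
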