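import Pool.Agent.U226.RC.Crit

/-!
# A rank criterion for the noncommutative standard conjecture `C⁺`

Let `k` be a perfect field, `A` a smooth proper dg category over `k` for which `C⁺` is known (for example
`A = perf(X)` for ANY smooth projective `X` if `k` is finite; curves, surfaces, abelian varieties, complete
intersections over any `k`), with nonzero cohomology, and `E_n = (A ⊗ A^op)^⊗n`. Let `𝒞` be an ARBITRARY
smooth proper dg category over `k`, `b(𝒞)` the total dimension of its cohomology (`HP` or `TP(-)[1/p]`). Let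
`a(n)` be the rank of `K_0 (𝒞^op ⊗ E_n)` and `ρ(n)` the rank of `K_0 (E_n)`, both modulo the kernel of the
Euler pairing.

Theorem.
(1) `a(n) / ρ(n)` converges to a natural number `s ≤ b(𝒞)`, and `a(n) ≤ s ρ(n)` for ALL `n`.
(2) There is an endomorphism `P` of the motive `U(𝒞)` whose realisation is idempotent of rank `s`, such that
`P` acts on the cohomology as a sum of endomorphisms which factor through motives `U(E_m)`, and such that
all composites of `1 - P` with morphisms `U(𝒞) → U(E_n)` are numerically trivial. `s = b(𝒞)` if and only if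
the identity of the cohomology of `𝒞` is a sum of such endomorphisms.
(3) `C⁺(𝒞)` holds if and only if the parity operator of the part cut out by `1 - P` (of dimension
`b(𝒞) - s`) is algebraic.
(4) **`C⁺(𝒞)` holds if `s ≥ b(𝒞) - 1`; this is so if `a(n) > (b(𝒞) - 2) ρ(n)` for ONE `n`.** So if `C⁺(𝒞)` fails
then `a(n) ≤ (b(𝒞) - 2) ρ(n)` for all `n` and all such `A`.

The conjecture `C⁺` for `𝒞` thus follows from a lower bound for the number of classes in
`K_0 (𝒞^op ⊗ E_n)` for one `n` and one `A`; no structure of `𝒞` (scheme, semi-orthogonal component, `C⁺` for a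
power, finite-dimensionality) is used. For `n = 0` it says: `C⁺(𝒞)` holds if the rank of `K_0(𝒞)` modulo the
Euler pairing is at least `b(𝒞) - 1`.

The setting. `C` is the category `NChow(k)_ℚ` of noncommutative Chow motives, `T = U(A)`, `Tᘁ = U(A^op)`,
`B = U(𝒞)`, `tp (T ⊗ Tᘁ) n = U(E_n)`, `Hom (U(𝒞), U(E_n)) = K_0(𝒞^op ⊗ E_n)_ℚ`; the numerically trivial
morphisms are given by the kernel of the Euler pairing (Marcolli, Tabuada). `R` is given by `HP` or
`TP(-)[1/p]` with coefficients extended to an algebraically closed field.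

Idea of the proof. If a morphism `g : B → W`, `W = tp (T ⊗ Tᘁ) m`, is not numerically trivial, then `End W`
modulo numerical equivalence is semisimple (`C⁺` for `W`), so a composite `W → B → W` can be corrected to a
nonzero idempotent `u`, which lifts to a homological idempotent because the numerically trivial
endomorphisms of `W` have nilpotent realisation; this splits off from `B` a piece which is a piece of `W`.
One goes on with the rest; the sum of the ranks of the pieces is at most `b(B)`. For pieces `u` of `W` the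
rank of `Hom (u, tp (T ⊗ Tᘁ) n)` is at most `rank(u) ρ(n)` and asymptotically equal to it (starting library
`N64.AF`: Schur's bound and asymptotics), hence (1). A piece of rank one is purely even or purely odd,
hence (4).
-/

set_option autoImplicit false

open CategoryTheory MonoidalCategory Module Filter Topology
open Pool.Agent.Y112.SR Pool.Agent.Y112.KD Pool.Agent.N64.AF Pool.Agent.U226.RC

namespace Pool.Agent.Results.MP_8f22fa_ag.RankCriterion

universe v u w

/-- The rank of the morphisms from an arbitrary `B` to the powers of `T ⊗ Tᘁ`, where `T` satisfies the sign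
conjecture, and the sign conjecture for `B`. -/
theorem result {C : Type u} [Category.{v} C] [Preadditive C] [MonoidalCategory C]
    [MonoidalPreadditive C] [SymmetricCategory C] [RightRigidCategory C]
    [Linear ℚ C] [MonoidalLinear ℚ C]
    {K : Type w} [Field K] [IsAlgClosed K] [Algebra ℚ K] (R : SuperRealisation C K)
    (hR : IsReal ℚ R) (T : C) (hT : R.CPlus T) (hb : 0 < bt R T) (B : C) :
    ∃ P : B ⟶ B, IsPart R (T ⊗ Tᘁ) P ∧
      Tendsto (fun n => (nr ℚ (𝟙 B) (𝟙 (tp (T ⊗ Tᘁ) n)) : ℝ) / numRank ℚ (tp (T ⊗ Tᘁ) n)) atTop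
        (𝓝 (rk R P : ℝ)) ∧
      (∀ n, nr ℚ (𝟙 B) (𝟙 (tp (T ⊗ Tᘁ) n)) ≤ rk R P * numRank ℚ (tp (T ⊗ Tᘁ) n)) ∧
      (rk R P = bt R B ↔ Dom R (T ⊗ Tᘁ) (𝟙 B)) ∧
      (R.CPlus B ↔ ∃ f : B ⟶ B, R.H.map f = R.H.map (𝟙 B - P) ≫ R.par B) ∧
      (bt R B ≤ rk R P + 1 → R.CPlus B) ∧
      ∀ n, bt R B * numRank ℚ (tp (T ⊗ Tᘁ) n) <
        nr ℚ (𝟙 B) (𝟙 (tp (T ⊗ Tᘁ) n)) + 2 * numRank ℚ (tp (T ⊗ Tᘁ) n) → R.CPlus B :=
  criterion hR hT hb B

end Pool.Agent.Results.MP_8f22fa_ag.RankCriterion
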