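import Pool.Agent.N164.NC.Rank

/-!
# The conjecture `C⁺` as an equality of ranks of trace forms

`C` is a `ℚ`-linear rigid symmetric monoidal category in which the endomorphisms of the unit object are
the rational numbers, for example the category `NChow(k)_ℚ` of noncommutative Chow motives; `R` is a
symmetric monoidal additive functor to finite dimensional super vector spaces over a field `K`, for
example `HP_±` in characteristic zero and `TP_±(-)_{1/p}` in characteristic `p`. For a smooth and proper
dg category `A` the endomorphisms of `M = U(A)` are the classes in `K_0(A^op ⊗ A)_ℚ`.

For endomorphisms `f`, `g` of `M` let `Tr⁺(f g)` and `Tr⁻(f g)` be the traces on the even and on the odd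
part of `R(M)`; their difference is the intersection number, a rational number which does not depend on
`R`. Let `r⁺` and `r⁻` be the ranks of the two forms `Tr⁺(f g)` and `Tr⁻(f g)` with values in `K`, and `r`
the dimension over `ℚ` of the algebra of the endomorphisms of `M` modulo numerical equivalence. Then
`r ≤ r⁺ + r⁻`, and the following are equivalent:

* `C⁺(M)`: the projector onto the even part of `R(M)` is algebraic;
* `r = r⁺ + r⁻`;
* the projector onto the even part is a combination of endomorphisms of `M` with coefficients in `K`;
* the pair of functions `g ↦ (Tr⁺(g), 0)` is a combination, with coefficients in `K`, of the pairs of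
  functions `g ↦ (Tr⁺(f g), Tr⁻(f g))`, for endomorphisms `f` of `M`.

No conjecture and no property of numerical equivalence is assumed.

Proof. The ranks of two forms on an algebra of operators and of their difference are compared with the
radicals of the forms: `r = r⁺ + r⁻` holds if and only if the operators act independently on the two
parts, up to elements of the radicals. Such elements are nilpotent on the two parts, so that a
polynomial in a suitable combination is the projector. It is a central idempotent, and it descends from
`K` to `ℚ`, since the difference of the two traces is rational.

The theorem is assembled from the file `N164/NC/Rank` of the starting library, whose theorems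
`rank_criterion`, `cplus_of_span` and `span_criterion` had not been handed in.
-/

set_option autoImplicit false

open CategoryTheory Limits MonoidalCategory

namespace Pool.Agent.Results.MP_8f22fa_ag.TraceRanks

open Pool.Agent.Y112.SR Pool.Agent.Y112.KD Pool.Agent.R484.NC Pool.Agent.N164.NC

universe v u w

/-- **`C⁺(M)` as an equality of ranks.** `numDim hU M` is the dimension of `End(M)` modulo numerical
equivalence, `rk β` the rank of a form `β` with values in `K`, `evenTrace R f` and `oddTrace R f` the traces
of `R(f)` on the even and the odd part of `R(M)`, `evp R M` the projector onto the even part and `ops R M`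
the set of the operators `R(f)`, for endomorphisms `f` of `M`. -/
theorem result {C : Type u} [Category.{v} C] [Preadditive C] [Linear ℚ C] [MonoidalCategory C]
    [MonoidalPreadditive C] [MonoidalLinear ℚ C] [SymmetricCategory C] [RightRigidCategory C]
    (hU : UnitQ C) {K : Type w} [Field K] (R : SuperRealisation C K) (M : C) :
    numDim hU M ≤ rk (fun f g : M ⟶ M => evenTrace R (f ≫ g)) +
      rk (fun f g : M ⟶ M => oddTrace R (f ≫ g)) ∧
    [R.CPlus M,
      numDim hU M = rk (fun f g : M ⟶ M => evenTrace R (f ≫ g)) +
        rk (fun f g : M ⟶ M => oddTrace R (f ≫ g)),
      evp R M ∈ Submodule.span K (ops R M),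
      (fun g : M ⟶ M => (evenTrace R g, (0 : K))) ∈ Submodule.span K
        (Set.range fun f g : M ⟶ M => (evenTrace R (f ≫ g), oddTrace R (f ≫ g)))].TFAE := by
  refine ⟨(rank_criterion R hU M).1, ?_⟩
  tfae_have 1 ↔ 2 := (rank_criterion R hU M).2.symm
  tfae_have 1 → 3 := by
    intro h
    obtain ⟨f, hf⟩ := (cplus_iff_op R M).1 h
    exact Submodule.subset_span ⟨f, hf⟩
  tfae_have 3 → 1 := cplus_of_span R hU
  tfae_have 1 ↔ 4 := span_criterion R hU M
  tfae_finish

end Pool.Agent.Results.MP_8f22fa_ag.TraceRanks
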